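import Mathlib
import Pool.Agent.TH905.PC.Fin

set_option autoImplicit false

/-!
# Tactical decompositions of symmetric designs: the quadratic condition at a prime

The theorem for the orbits of a group is `Pool.Agent.TH905.PC.quad_triv`; here no group is needed.
-/

namespace Pool.Agent.V11209.TD

open Finset Pool.Agent.H634R3.PPC Pool.Agent.TH905.PC

section

variable {P L ι κ : Type} [Fintype P] [Fintype L] [Fintype ι] [Fintype κ]

open Classical in
/-- the size of a class -/
noncomputable def cs {X : Type} [Fintype X] {ι : Type} (f : X → ι) (i : ι) : ℕ :=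
  (univ.filter (fun x : X => f x = i)).card

open Classical in
/-- the number of points of class `i` on `l` -/
noncomputable def cnt (inc : P → L → Prop) (f : P → ι) (i : ι) (l : L) : ℕ :=
  (univ.filter (fun x : P => inc x l ∧ f x = i)).card

open Classical in
theorem cs_pos {X : Type} [Fintype X] {ι : Type} (f : X → ι) (hf : Function.Surjective f) (i : ι) :
    0 < cs f i := by
  obtain ⟨x, hx⟩ := hf i
  exact Finset.card_pos.2 ⟨x, by simp [hx]⟩

open Classical in
theorem sum_fib (g : L → κ) (r : κ → L) (hr : ∀ j, g (r j) = j) (F : L → ℤ)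
    (hF : ∀ l m, g l = g m → F l = F m) :
    ∑ j, F (r j) * (cs g j : ℤ) = ∑ l, F l := by
  rw [← Finset.sum_fiberwise_of_maps_to (s := (univ : Finset L)) (t := (univ : Finset κ)) (g := g)
    (fun l _ => mem_univ (g l)) F]
  refine sum_congr rfl fun j _ => ?_
  rw [sum_congr rfl (fun l hl => hF l (r j) (by rw [(mem_filter.1 hl).2, hr])), sum_const,
    nsmul_eq_mul, mul_comm]
  rfl

open Classical in
theorem cnt_sum (inc : P → L → Prop) (f : P → ι) (i : ι) (l : L) :
    (cnt inc f i l : ℤ) = ∑ x ∈ univ.filter (fun x : P => f x = i), if inc x l then 1 else 0 := by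
  unfold cnt
  rw [card_filter, sum_filter]
  push_cast
  refine sum_congr rfl fun x _ => ?_
  by_cases h1 : inc x l <;> by_cases h2 : f x = i <;> simp [h1, h2]

open Classical in
theorem cnt_total {inc : P → L → Prop} {n la : ℕ} (D : Des inc n la) (f : P → ι) (i : ι) :
    ∑ l, (cnt inc f i l : ℤ) = (cs f i : ℤ) * (n + la) := by
  simp only [cnt_sum]
  rw [sum_comm]
  have h : ∀ x : P, ∑ l : L, (if inc x l then (1 : ℤ) else 0) = n + la := by
    intro x
    have h1 := D.row x x
    rw [if_pos rfl] at h1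
    simp only [and_self] at h1
    rw [← sum_filter, sum_const, nsmul_eq_mul, mul_one, h1]
    push_cast
    rfl
  rw [sum_congr rfl (fun x _ => h x), sum_const, nsmul_eq_mul]
  rfl

open Classical in
theorem cnt_gram {inc : P → L → Prop} {n la : ℕ} (D : Des inc n la) (f : P → ι) (i j : ι) :
    ∑ l, (cnt inc f i l : ℤ) * (cnt inc f j l : ℤ) =
      (if i = j then (n : ℤ) * cs f i else 0) + la * (cs f i * cs f j) := by
  have h1 : ∀ l, (cnt inc f i l : ℤ) * (cnt inc f j l : ℤ) =
      ∑ x ∈ univ.filter (fun x : P => f x = i), ∑ z ∈ univ.filter (fun z : P => f z = j),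
        (if inc x l ∧ inc z l then (1 : ℤ) else 0) := by
    intro l
    rw [cnt_sum, cnt_sum, sum_mul_sum]
    refine sum_congr rfl fun x _ => sum_congr rfl fun z _ => ?_
    by_cases h1 : inc x l <;> by_cases h2 : inc z l <;> simp [h1, h2]
  simp only [h1]
  rw [sum_comm]
  have h2 : ∀ x z : P, ∑ l : L, (if inc x l ∧ inc z l then (1 : ℤ) else 0) =
      (if x = z then (n : ℤ) else 0) + la := by
    intro x z
    have h1 := D.row x z
    rw [← sum_filter, sum_const, nsmul_eq_mul, mul_one, h1]
    push_cast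
    rfl
  have h3 : ∀ x ∈ univ.filter (fun x : P => f x = i),
      ∑ l : L, ∑ z ∈ univ.filter (fun z : P => f z = j), (if inc x l ∧ inc z l then (1 : ℤ) else 0) =
        (if i = j then (n : ℤ) else 0) + la * cs f j := by
    intro x hx
    rw [sum_comm, sum_congr rfl (fun z _ => h2 x z), sum_add_distrib, sum_ite_eq, sum_const,
      nsmul_eq_mul]
    have hx1 : f x = i := (mem_filter.1 hx).2
    have e1 : (x ∈ univ.filter (fun z : P => f z = j)) ↔ i = j := by
      rw [mem_filter, hx1]
      exact ⟨fun h => h.2, fun h => ⟨mem_univ _, h⟩⟩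
    simp only [e1]
    unfold cs
    ring
  rw [sum_congr rfl h3, sum_const, nsmul_eq_mul]
  unfold cs
  split_ifs <;> ring

/-- the extended matrix of the decomposition -/
noncomputable def bx (inc : P → L → Prop) (f : P → ι) (r : κ → L) (n la : ℕ) :
    Matrix (ι ⊕ Unit) (κ ⊕ Unit) ℤ
  | Sum.inl i, Sum.inl j => (cnt inc f i (r j) : ℤ)
  | Sum.inl i, Sum.inr _ => (cs f i : ℤ)
  | Sum.inr _, Sum.inl _ => (la : ℤ)
  | Sum.inr _, Sum.inr _ => (n : ℤ) + la

/-- the extended form -/
noncomputable def px {X ι : Type} [Fintype X] (f : X → ι) (la : ℕ) : ι ⊕ Unit → ℤ :=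
  Sum.elim (fun i => (cs f i : ℤ)) (fun _ => -(la : ℤ))

open Classical in
theorem bx_gram [Nonempty P] {inc : P → L → Prop} {n la : ℕ} (D : Des inc n la) (f : P → ι)
    (g : L → κ) (r : κ → L) (hr : ∀ j, g (r j) = j)
    (hcol : ∀ l m, g l = g m → ∀ i, cnt inc f i l = cnt inc f i m) :
    bx inc f r n la * Matrix.diagonal (px g la) * (bx inc f r n la).transpose =
      (n : ℤ) • Matrix.diagonal (px f la) := by
  have h1 : ∀ i : ι, ∑ j : κ, (cnt inc f i (r j) : ℤ) * (cs g j : ℤ) =
      (cs f i : ℤ) * ((n : ℤ) + la) := by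
    intro i
    rw [sum_fib g r hr (fun l => (cnt inc f i l : ℤ)) (fun l m h => by rw [hcol l m h]),
      cnt_total D]
  ext i j
  rw [Matrix.mul_apply, Fintype.sum_sum_type]
  simp only [Matrix.mul_diagonal, Matrix.transpose_apply, Finset.univ_unique,
    Finset.sum_singleton, Matrix.smul_apply, smul_eq_mul, Matrix.diagonal_apply]
  rcases i with i | i
  · rcases j with j | j
    · simp only [bx, px, Sum.elim_inl, Sum.elim_inr, Sum.inl.injEq]
      have h4 : ∑ e : κ, (cnt inc f i (r e) : ℤ) * (cs g e : ℤ) * (cnt inc f j (r e) : ℤ) =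
          (if i = j then (n : ℤ) * cs f i else 0) + la * (cs f i * cs f j) := by
        rw [← cnt_gram D f i j, ← sum_fib g r hr
          (fun l => (cnt inc f i l : ℤ) * (cnt inc f j l : ℤ))
          (fun l m h => by rw [hcol l m h, hcol l m h])]
        exact sum_congr rfl fun e _ => by ring
      rw [h4]
      split_ifs <;> ring
    · simp only [bx, px, Sum.elim_inl, Sum.elim_inr, reduceCtorEq, if_false, mul_zero]
      rw [← sum_mul, h1]
      ring
  · rcases j with j | j
    · simp only [bx, px, Sum.elim_inl, Sum.elim_inr, reduceCtorEq, if_false, mul_zero]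
      have h4 : ∑ e : κ, (la : ℤ) * (cs g e : ℤ) * (cnt inc f j (r e) : ℤ) =
          (la : ℤ) * ((cs f j : ℤ) * ((n : ℤ) + la)) := by
        rw [← h1, mul_sum]
        exact sum_congr rfl fun e _ => by ring
      rw [h4]
      ring
    · simp only [bx, px, Sum.elim_inl, Sum.elim_inr, if_true]
      have h4 : ∑ e : κ, (la : ℤ) * (cs g e : ℤ) * (la : ℤ) = (la : ℤ) * la * Fintype.card L := by
        have h5 := sum_fib g r hr (fun _ => (1 : ℤ)) (fun _ _ _ => rfl)
        rw [sum_const, card_univ, nsmul_eq_mul, mul_one] at h5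
        rw [← h5, mul_sum]
        exact sum_congr rfl fun e _ => by ring
      have h6 := des_sq D
      rw [h4]
      linear_combination (-(la : ℤ)) * h6

theorem det_px {X ι : Type} [Fintype X] [Fintype ι] [DecidableEq ι] (f : X → ι) (la : ℕ) :
    (Matrix.diagonal (px f la)).det = (∏ i : ι, (cs f i : ℤ)) * -(la : ℤ) := by
  rw [Matrix.det_diagonal, Fintype.prod_sum_type]
  simp [px]

/-- A tactical decomposition has at least as many line classes as point classes (only the condition
on the lines is used). -/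
theorem card_le [Nonempty P] {inc : P → L → Prop} {n la : ℕ} (D : Des inc n la) (hla : la ≠ 0)
    (f : P → ι) (hf : Function.Surjective f)
    (g : L → κ) (r : κ → L) (hr : ∀ j, g (r j) = j)
    (hcol : ∀ l m, g l = g m → ∀ i, cnt inc f i l = cnt inc f i m) :
    Fintype.card ι ≤ Fintype.card κ := by
  classical
  have hn0 : (n : ℤ) ≠ 0 := by exact_mod_cast D.npos.ne'
  have h : Fintype.card (ι ⊕ Unit) ≤ Fintype.card (κ ⊕ Unit) := by
    apply card_le_of_det (bx inc f r n la * Matrix.diagonal (px g la)) (bx inc f r n la).transpose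
    rw [bx_gram D f g r hr hcol, Matrix.det_smul, det_px]
    refine mul_ne_zero (pow_ne_zero _ hn0) (mul_ne_zero (Finset.prod_ne_zero_iff.2 fun i _ => ?_)
      (neg_ne_zero.2 (by exact_mod_cast hla)))
    have := cs_pos f hf i
    exact_mod_cast this.ne'
  rw [Fintype.card_sum, Fintype.card_sum, Fintype.card_unit] at h
  omega

/-- the quadratic condition at the prime `p` -/
theorem quad [Nonempty P] {inc : P → L → Prop} {n la : ℕ} (D : Des inc n la)
    (f : P → ι) (g : L → κ) (r : κ → L) (hr : ∀ j, g (r j) = j)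
    (hcol : ∀ l m, g l = g m → ∀ i, cnt inc f i l = cnt inc f i m)
    (hcard : Fintype.card ι = Fintype.card κ)
    {p : ℕ} (hp : p.Prime) (hla : ¬ p ∣ la)
    (hsz : ∀ i, ¬ p ∣ cs f i) (hsz' : ∀ j, ¬ p ∣ cs g j)
    {a u : ℕ} (ha : Odd a) (hu : ¬ p ∣ u) (hN : n = p ^ a * u) :
    ∃ t, Fintype.card ι + 1 = 2 * t ∧
      IsSquare ((-1) ^ t * (((∏ i : ι, (cs f i : ℤ)) * -(la : ℤ) : ℤ) : ZMod p)) := by
  classical
  have hcard' : Fintype.card (ι ⊕ Unit) = Fintype.card (κ ⊕ Unit) := by
    rw [Fintype.card_sum, Fintype.card_sum, hcard]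
  let ε : (ι ⊕ Unit) ≃ (κ ⊕ Unit) := Fintype.equivOfCardEq hcard'
  let B : Matrix (ι ⊕ Unit) (ι ⊕ Unit) ℤ := (bx inc f r n la).submatrix id ε
  have k1 := bx_gram D f g r hr hcol
  have k3 : B * (Matrix.diagonal (px g la)).submatrix ε ε * B.transpose =
      (n : ℤ) • Matrix.diagonal (px f la) := by
    rw [← k1]
    have h1 : B.transpose = (bx inc f r n la).transpose.submatrix ε id := rfl
    rw [h1, Matrix.submatrix_mul_equiv, Matrix.submatrix_mul_equiv, Matrix.submatrix_id_id]
  have hd : ∀ {X α : Type} [Fintype X] [Fintype α] (f : X → α), (∀ i, ¬ p ∣ cs f i) →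
      ¬ (p : ℤ) ∣ (∏ i : α, (cs f i : ℤ)) * -(la : ℤ) := by
    intro X α _ _ f h h1
    rcases (Nat.prime_iff_prime_int.1 hp).dvd_or_dvd h1 with h2 | h2
    · exact prime_prod hp univ _ (fun i _ => h i) h2
    · rw [dvd_neg] at h2
      exact hla (by exact_mod_cast h2)
  have dP : ¬ (p : ℤ) ∣ (Matrix.diagonal (px f la)).det := by
    rw [det_px]
    exact hd f hsz
  have dL : ¬ (p : ℤ) ∣ ((Matrix.diagonal (px g la)).submatrix ε ε).det := by
    rw [Matrix.det_submatrix_equiv_self, det_px]
    exact hd g hsz'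
  obtain ⟨t, h1, h2⟩ := Pool.Agent.W825.KV.simil_odd B
    ((Matrix.diagonal (px g la)).submatrix ε ε) (Matrix.diagonal (px f la)) (n : ℤ) p hp
    (by rw [Matrix.transpose_submatrix, Matrix.diagonal_transpose])
    (Matrix.diagonal_transpose _) k3 ha (u := (u : ℤ)) (by exact_mod_cast hu)
    (by rw [hN]; push_cast; ring) dL dP
  refine ⟨t, ?_, ?_⟩
  · rw [← h1, Fintype.card_sum, Fintype.card_unit]
  · rw [det_px] at h2
    exact h2

end

end Pool.Agent.V11209.TD
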