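import Mathlib
import Pool.Agent.V11209.TD.Main

set_option autoImplicit false

/-!
# Tactical decompositions: from the conditions at the primes to the number of classes
-/

namespace Pool.Agent.V11209.TD

open Finset Pool.Agent.H634R3.PPC Pool.Agent.TH905.PC

theorem succ_not_dvd {M p : ℕ} (hp : p.Prime) (hpM : M ∣ p + 1) : ¬ p ∣ M := by
  intro h
  have h1 : p ∣ p + 1 := h.trans hpM
  have h2 : p ∣ 1 := (Nat.dvd_add_right dvd_rfl).1 h1
  exact hp.one_lt.ne' (Nat.dvd_one.1 h2)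

section

variable {P L : Type} [Fintype P] [Fintype L] [Nonempty P] [Nonempty L] {inc : P → L → Prop}
  {n la k m : ℕ}

/-- a tactical decomposition, for the numbers `cnt` -/
structure TD (inc : P → L → Prop) {ι κ : Type} (f : P → ι) (g : L → κ) : Prop where
  surjP : Function.Surjective f
  surjL : Function.Surjective g
  col : ∀ l m, g l = g m → ∀ i, cnt inc f i l = cnt inc f i m
  row : ∀ x z, f x = f z → ∀ j, cnt (fun l x => inc x l) g j x = cnt (fun l x => inc x l) g j z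

theorem TD.dual {ι κ : Type} {f : P → ι} {g : L → κ} (h : TD inc f g) :
    TD (fun l x => inc x l) g f := ⟨h.surjL, h.surjP, h.row, h.col⟩

theorem TD.card_eq (D : Des inc n la) (hla : la ≠ 0) {f : P → Fin k} {g : L → Fin m}
    (h : TD inc f g) : m = k := by
  have h1 := card_le D hla f h.surjP g (Function.surjInv h.surjL) (Function.surjInv_eq h.surjL) h.col
  have h2 := card_le (des_dual D) hla g h.surjL f (Function.surjInv h.surjP)
    (Function.surjInv_eq h.surjP) h.row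
  rw [Fintype.card_fin, Fintype.card_fin] at h1 h2
  omega

/-- the condition at one prime which divides `n` exactly once -/
theorem TD.quad (D : Des inc n la) (hla0 : la ≠ 0) {f : P → Fin k} {g : L → Fin m}
    (h : TD inc f g) {p : ℕ} (hp : p.Prime) (hla : ¬ p ∣ la) (h1 : p ∣ n) (h2 : ¬ p ^ 2 ∣ n)
    (hsz : ∀ i, ¬ p ∣ cs f i) (hsz' : ∀ j, ¬ p ∣ cs g j) :
    ∃ t, k + 1 = 2 * t ∧
      IsSquare ((-1) ^ t * (((∏ i : Fin k, (cs f i : ℤ)) * -(la : ℤ) : ℤ) : ZMod p)) := by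
  obtain ⟨u, hu, hN⟩ := exact_dvd h1 h2
  have hc : Fintype.card (Fin k) = Fintype.card (Fin m) := by
    rw [Fintype.card_fin, Fintype.card_fin, h.card_eq D hla0]
  have h3 := Pool.Agent.V11209.TD.quad D f g (Function.surjInv h.surjL)
    (Function.surjInv_eq h.surjL) h.col hc hp hla hsz hsz' odd_one hu hN
  rwa [Fintype.card_fin] at h3

/-- the number of classes is odd -/
theorem TD.odd (D : Des inc n la) {M : ℕ} (hlaM : la ∣ M) (hla0 : la ≠ 0)
    {f : P → Fin k} {g : L → Fin m} (h : TD inc f g)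
    (hP : ∀ i, ∀ q : ℕ, q.Prime → q ∣ n → q ∣ cs f i → q ∣ M)
    (hL : ∀ j, ∀ q : ℕ, q.Prime → q ∣ n → q ∣ cs g j → q ∣ M)
    (hn : ArOK M n) : k % 2 = 1 := by
  obtain ⟨p0, hp0, hpM0, h10, h20⟩ := hn.1
  have hpM0' := succ_not_dvd hp0 hpM0
  obtain ⟨t, ht, -⟩ := h.quad D hla0 hp0 (fun hd => hpM0' (hd.trans hlaM)) h10 h20
    (fun i hd => hpM0' (hP i p0 hp0 h10 hd)) (fun j hd => hpM0' (hL j p0 hp0 h10 hd))
  omega

/-- the number of classes is `1` modulo `4` -/
theorem TD.main (D : Des inc n la) {M : ℕ} (hlaM : la ∣ M) (hla0 : la ≠ 0)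
    {f : P → Fin k} {g : L → Fin m} (h : TD inc f g)
    (hP : ∀ i, ∀ q : ℕ, q.Prime → q ∣ cs f i → q ∣ M)
    (hL : ∀ j, ∀ q : ℕ, q.Prime → q ∣ n → q ∣ cs g j → q ∣ M)
    (hn : ArOK M n) : k % 4 = 1 ∧ IsSquare (la * ∏ i, cs f i) := by
  have key : ∀ p : ℕ, p.Prime → ¬ p ∣ M → p ∣ n → ¬ p ^ 2 ∣ n →
      ∃ t, k + 1 = 2 * t ∧
      IsSquare ((-1) ^ t * (((∏ i : Fin k, (cs f i : ℤ)) * -(la : ℤ) : ℤ) : ZMod p)) :=
    fun p hp hpM h1 h2 => h.quad D hla0 hp (fun hd => hpM (hd.trans hlaM)) h1 h2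
      (fun i hd => hpM (hP i p hp hd)) (fun j hd => hpM (hL j p hp h1 hd))
  obtain ⟨p0, hp0, hpM0, h10, h20⟩ := hn.1
  obtain ⟨t, ht1, -⟩ := key p0 hp0 (succ_not_dvd hp0 hpM0) h10 h20
  have h3 := square_of hn (Q := la * ∏ i : Fin k, cs f i)
    (mul_ne_zero hla0 (Finset.prod_ne_zero_iff.2 fun i _ => (cs_pos f h.surjP i).ne')) (by
      intro q hq hqQ
      rcases (Nat.Prime.dvd_mul hq).1 hqQ with hqQ | hqQ
      · exact hqQ.trans hlaM
      obtain ⟨i, -, hi⟩ := (Prime.dvd_finsetProd_iff (Nat.prime_iff.1 hq) _).1 hqQ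
      exact hP i q hq hi) (t + 1) (by
      intro p hp hpM h1 h2
      obtain ⟨t', ht', hs⟩ := key p hp hpM h1 h2
      have : t' = t := by omega
      subst this
      push_cast at hs ⊢
      rw [pow_succ]
      have e : (-1 : ZMod p) ^ t' * -1 * ((la : ZMod p) * ∏ i : Fin k, (cs f i : ZMod p)) =
          (-1) ^ t' * ((∏ i : Fin k, (cs f i : ZMod p)) * -(la : ZMod p)) := by ring
      rw [e]
      exact hs)
  obtain ⟨s, hs⟩ := h3.1
  exact ⟨by omega, h3.2⟩

end

theorem ncard_cs {X : Type} [Fintype X] {ι : Type} (f : X → ι) (i : ι) :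
    {x : X | f x = i}.ncard = cs f i := by
  classical
  unfold cs
  rw [← Set.ncard_coe_finset]
  congr 1
  ext x
  simp

theorem ncard_cnt {X Y : Type} [Fintype X] [Fintype Y] {ι : Type} (inc : X → Y → Prop) (f : X → ι)
    (i : ι) (l : Y) : {x : X | inc x l ∧ f x = i}.ncard = cnt inc f i l := by
  classical
  unfold cnt
  rw [← Set.ncard_coe_finset]
  congr 1
  ext x
  simp

end Pool.Agent.V11209.TD
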