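import Mathlib
import Pool.Agent.V11209.TD.Prime
import Pool.Agent.TH905.PC.Pts

set_option autoImplicit false

/-!
# Tactical decompositions of symmetric designs on almost all numbers of points

The families of parameters and the reduction to them are those of `Pool.Agent.TH905.PC.Pts`.
-/

namespace Pool.Agent.V11209.TD

open Finset Pool.Agent.H634R3.PPC Pool.Agent.TH905.PC Pool.Agent.H951R4.OD Pool.Agent.H634R3.AA

section

variable {P L : Type} [Fintype P] [Fintype L] [Nonempty P] [Nonempty L] {inc : P → L → Prop}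
  {n la k m : ℕ}

theorem TD.pts_odd (D : Des inc n la) (hla0 : la ≠ 0) {M M' n' : ℕ} (hn : Lk M M' n n' la)
    {f : P → Fin k} {g : L → Fin m} (h : TD inc f g)
    (hP : ∀ i, ∀ q : ℕ, q.Prime → q ∣ n → q ∣ cs f i → q ∣ M)
    (hL : ∀ j, ∀ q : ℕ, q.Prime → q ∣ n → q ∣ cs g j → q ∣ M) : k % 2 = 1 := by
  obtain ⟨p0, hp0, hpM0, h10, h20⟩ := hn.ar.1
  have hpM0' := succ_not_dvd hp0 hpM0
  obtain ⟨h3, h4⟩ := hn.ex p0 hp0 hpM0' h10 h20
  obtain ⟨t, ht, -⟩ := h.quad D hla0 hp0 (hn.la p0 hp0 hpM0' h10 h20).1 h3 h4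
    (fun i hd => hpM0' ((hP i p0 hp0 h3 hd).trans hn.dvd))
    (fun j hd => hpM0' ((hL j p0 hp0 h3 hd).trans hn.dvd))
  omega

theorem TD.pts (D : Des inc n la) (hla0' : la ≠ 0) {M M' n' : ℕ} (hn : Lk M M' n n' la)
    {f : P → Fin k} {g : L → Fin m} (h : TD inc f g)
    (hP : ∀ i, ∀ q : ℕ, q.Prime → q ∣ cs f i → q ∣ M)
    (hL : ∀ j, ∀ q : ℕ, q.Prime → q ∣ n → q ∣ cs g j → q ∣ M) :
    k % 4 = 3 ∧ IsSquare (∏ i, cs f i) := by
  have key : ∀ p : ℕ, p.Prime → ¬ p ∣ M' → p ∣ n' → ¬ p ^ 2 ∣ n' →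
      ∃ t, k + 1 = 2 * t ∧
      IsSquare ((-1) ^ t * (((∏ i : Fin k, (cs f i : ℤ)) * -(la : ℤ) : ℤ) : ZMod p)) := by
    intro p hp hpM h1 h2
    obtain ⟨h3, h4⟩ := hn.ex p hp hpM h1 h2
    exact h.quad D hla0' hp (hn.la p hp hpM h1 h2).1 h3 h4
      (fun i hd => hpM ((hP i p hp hd).trans hn.dvd))
      (fun j hd => hpM ((hL j p hp h3 hd).trans hn.dvd))
  obtain ⟨p0, hp0, hpM0, h10, h20⟩ := hn.ar.1
  obtain ⟨t, ht1, -⟩ := key p0 hp0 (succ_not_dvd hp0 hpM0) h10 h20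
  have h3 := square_of hn.ar (Q := ∏ i : Fin k, cs f i)
    (Finset.prod_ne_zero_iff.2 fun i _ => (cs_pos f h.surjP i).ne') (by
      intro q hq hqQ
      obtain ⟨i, -, hi⟩ := (Prime.dvd_finsetProd_iff (Nat.prime_iff.1 hq) _).1 hqQ
      exact (hP i q hq hi).trans hn.dvd) t (by
      intro p hp hpM h1 h2
      obtain ⟨t', ht', hs⟩ := key p hp hpM h1 h2
      have : t' = t := by omega
      subst this
      obtain ⟨hla1, ⟨y, hy⟩⟩ := hn.la p hp hpM h1 h2
      have hF : Fact p.Prime := ⟨hp⟩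
      have hla0 : ((la : ℕ) : ZMod p) ≠ 0 := by
        rw [Ne, ZMod.natCast_eq_zero_iff]
        exact hla1
      obtain ⟨x, hx⟩ := hs
      push_cast at hx hy ⊢
      have hy0 : y ≠ 0 := by
        rintro rfl
        apply hla0
        rw [mul_zero, neg_eq_zero] at hy
        exact hy
      refine ⟨x / y, ?_⟩
      rw [div_mul_div_comm, ← hx, ← hy]
      field_simp)
  obtain ⟨s, hs⟩ := h3.1
  exact ⟨by omega, h3.2⟩

end

/-- the conclusion -/
def Cn {v c m : ℕ} (M : ℕ) (f : Fin v → Fin c) (g : Fin v → Fin m) : Prop :=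
  m = c ∧ c % 2 = 1 ∧
    ((∀ i, ∀ q : ℕ, q.Prime → q ∣ cs f i → q ∣ M) → c % 4 = 3 ∧ IsSquare (∏ i, cs f i)) ∧
    ((∀ j, ∀ q : ℕ, q.Prime → q ∣ cs g j → q ∣ M) → c % 4 = 3 ∧ IsSquare (∏ j, cs g j))

/-- a bad decomposition -/
structure BT (M v k lam : ℕ) (B : Fin v → Finset (Fin v)) {c m : ℕ} (f : Fin v → Fin c)
    (g : Fin v → Fin m) : Prop where
  kv : k < v
  size : ∀ i, (B i).card = k
  pair : ∀ x y : Fin v, x ≠ y →
    (Finset.univ.filter (fun i => x ∈ B i ∧ y ∈ B i)).card = lam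
  td : TD (fun (x : Fin v) (i : Fin v) => x ∈ B i) f g
  hP : ∀ i, ∀ q : ℕ, q.Prime → q ∣ k - lam → q ∣ cs f i → q ∣ M
  hL : ∀ j, ∀ q : ℕ, q.Prime → q ∣ k - lam → q ∣ cs g j → q ∣ M
  bad : ¬ Cn M f g

theorem pts_cn {v k lam c m : ℕ} {B : Fin v → Finset (Fin v)} {f : Fin v → Fin c}
    {g : Fin v → Fin m} {M M' n' : ℕ} (hv : 2 ≤ v) (hlam : 1 ≤ lam) (h : BT M v k lam B f g)
    (hn : Lk M M' (k - lam) n' lam) : False := by
  classical
  have hne : Nonempty (Fin v) := ⟨⟨0, by omega⟩⟩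
  have D := des_of hv hlam h.kv h.size h.pair
  have hla0 : lam ≠ 0 := by omega
  have hmk := h.td.card_eq D hla0
  refine h.bad ⟨hmk, h.td.pts_odd D hla0 hn h.hP h.hL, fun h1 => h.td.pts D hla0 hn h1 h.hL,
    fun h1 => ?_⟩
  have h2 := h.td.dual.pts (des_dual D) hla0 hn h1 h.hP
  exact ⟨by rw [← hmk]; exact h2.1, h2.2⟩

/-- `v` points, type `(r, s)` -/
def FixT (M r s v : ℕ) : Prop :=
  ∃ (k lam : ℕ) (B : Fin v → Finset (Fin v)) (c' m : ℕ) (f : Fin v → Fin c') (g : Fin v → Fin m)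
    (b c : ℕ), BT M v k lam B f g ∧ 1 ≤ b ∧ 1 ≤ c ∧ k = r ^ 2 * b ∧
      v = 1 + b * (r ^ 2 + s ^ 2) ∧ lam = r ^ 2 * c ∧ r ^ 2 * b = 1 + c * (r ^ 2 + s ^ 2)

theorem small_fixT {M r s : ℕ} (hM : M ≠ 0) (hr : 1 ≤ r) (hs : 1 ≤ s) : Small (FixT M r s) := by
  classical
  intro ε hε
  obtain ⟨N0, hN0⟩ := (ar_negl (M * (r * s))
    (mul_ne_zero hM (mul_ne_zero (by omega) (by omega))) ε hε).exists_forall_of_atTop
  refine ⟨N0, fun N hN => le_trans ?_ (hN0 N hN)⟩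
  rw [Nat.cast_le]
  have hfin : {n : ℕ | n ≤ N ∧ (1 ≤ n ∧ ¬ ArOK (M * (r * s)) n)}.Finite :=
    (Set.finite_Iic N).subset fun n hn => hn.1
  have hsub : {v : ℕ | v ≤ N ∧ FixT M r s v} ⊆
      (fun n : ℕ => (fr r s n / (s : ℤ) ^ 2).toNat) ''
        {n : ℕ | n ≤ N ∧ (1 ≤ n ∧ ¬ ArOK (M * (r * s)) n)} := by
    rintro v ⟨hvN, k, lam, B, c', m, f, g, b, c, hE, hb, hc, hkb, hvb, hlc, hbc⟩
    have hr2 : 1 ≤ r ^ 2 := Nat.one_le_pow _ _ hr
    have hs2 : 1 ≤ s ^ 2 := Nat.one_le_pow _ _ hs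
    have hcb : c < b := by
      by_contra h
      push Not at h
      nlinarith
    have hkey : fr r s (b - c) = (v : ℤ) * (s : ℤ) ^ 2 := by
      unfold fr
      rw [Nat.cast_sub hcb.le, hvb]
      have h1 : (r : ℤ) ^ 2 * b = 1 + c * (r ^ 2 + s ^ 2) := by exact_mod_cast hbc
      push_cast
      linear_combination (((r : ℤ) ^ 2 + (s : ℤ) ^ 2)) * h1
    have hv2 : 2 ≤ v := by
      rw [hvb]
      nlinarith
    have hl1 : 1 ≤ lam := by
      rw [hlc]
      nlinarith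
    refine ⟨b - c, ⟨?_, by omega, fun har => ?_⟩, ?_⟩
    · have : b ≤ v := by
        rw [hvb]
        nlinarith
      omega
    · have hl := link hM hr hs hcb hbc har
      rw [← hkb, ← hlc] at hl
      exact pts_cn hv2 hl1 hE hl
    · show (fr r s (b - c : ℕ) / (s : ℤ) ^ 2).toNat = v
      rw [hkey, Int.mul_ediv_cancel _ (by positivity)]
      simp
  exact (Set.ncard_le_ncard hsub (hfin.image _)).trans (Set.ncard_image_le hfin)

/-- `v` points carry a bad decomposition -/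
def HasT (M v : ℕ) : Prop :=
  ∃ (k lam : ℕ) (B : Fin v → Finset (Fin v)) (c m : ℕ) (f : Fin v → Fin c) (g : Fin v → Fin m),
    2 ≤ k ∧ k + 2 ≤ v ∧ BT M v k lam B f g

/-- the same with `k (v - 1 - k)` a square -/
def HasSqT (M v : ℕ) : Prop :=
  ∃ (k lam : ℕ) (B : Fin v → Finset (Fin v)) (c m : ℕ) (f : Fin v → Fin c) (g : Fin v → Fin m),
    2 ≤ k ∧ k + 2 ≤ v ∧ BT M v k lam B f g ∧ IsSquare (k * (v - 1 - k))

theorem small_sqT {M : ℕ} (hM : M ≠ 0) : Small (HasSqT M) := by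
  intro ε hε
  obtain ⟨D, N0, h0⟩ := TailBig.tailBig (ε / 3) (by positivity)
  obtain ⟨N1, h1⟩ := Pool.Agent.H634R3.AA.TailSmall.tailSmall Pool.Agent.H634R3.AA.Pell.pell (ε / 3) (by positivity)
  have hF : Small (fun v => ∃ i ∈ Finset.Icc 1 D ×ˢ Finset.Icc 1 D, FixT M i.1 i.2 v) :=
    small_finset _ _ fun i hi => by
      rw [Finset.mem_product, Finset.mem_Icc, Finset.mem_Icc] at hi
      exact small_fixT hM hi.1.1 hi.2.1
  obtain ⟨N2, h2⟩ := hF (ε / 3) (by positivity)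
  refine ⟨max N0 (max N1 N2), fun N hN => ?_⟩
  have e0 := h0 N (le_trans (le_max_left _ _) hN)
  have e1 := h1 N (le_trans (le_trans (le_max_left _ _) (le_max_right _ _)) hN)
  have e2 := h2 N (le_trans (le_trans (le_max_right _ _) (le_max_right _ _)) hN)
  have hsub : {v : ℕ | v ≤ N ∧ HasSqT M v} ⊆
      ({v : ℕ | v ≤ N ∧ ∃ r s b c : ℕ, 1 ≤ r ∧ 1 ≤ s ∧ 1 ≤ b ∧ v = 1 + b * (r ^ 2 + s ^ 2) ∧
        r ^ 2 * b = 1 + c * (r ^ 2 + s ^ 2) ∧ D < r ^ 2 + s ^ 2 ∧ r ^ 2 + s ^ 2 ≤ b} ∪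
      {v : ℕ | v ≤ N ∧ ∃ r s b c : ℕ, 1 ≤ r ∧ 1 ≤ s ∧ 1 ≤ b ∧ 1 ≤ c ∧
        v = 1 + b * (r ^ 2 + s ^ 2) ∧
        r ^ 2 * b = 1 + c * (r ^ 2 + s ^ 2) ∧ b < r ^ 2 + s ^ 2}) ∪
      {v : ℕ | v ≤ N ∧ ∃ i ∈ Finset.Icc 1 D ×ˢ Finset.Icc 1 D, FixT M i.1 i.2 v} := by
    rintro v ⟨hvN, k, lam, B, c', m, f, g, hk2, hkv, hT, hsq⟩
    have hlam := lam_pos hk2 hkv hT.size hT.pair
    obtain ⟨-, hcount⟩ := repl v k lam (by omega) hlam B hT.size hT.pair
    have h3 : lam * (v - 1) = k * (k - 1) := by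
      have h6 : k * (k - 1) + k = k * k := by
        obtain ⟨m, hm⟩ : ∃ m, k = m + 1 := ⟨k - 1, by omega⟩
        rw [hm, Nat.add_sub_cancel]
        ring
      linarith
    obtain ⟨r, s, b, c, hr, hs, hb, hc, hkb, hvb, hlc, hbc⟩ :=
      Param.param v k lam hk2 hkv h3 hsq
    by_cases hD : r ^ 2 + s ^ 2 ≤ D
    · right
      refine ⟨hvN, (r, s), ?_, k, lam, B, c', m, f, g, b, c, hT, hb, hc, hkb, hvb, hlc, hbc⟩
      rw [Finset.mem_product, Finset.mem_Icc, Finset.mem_Icc]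
      have hr2 : r ≤ r ^ 2 := Nat.le_self_pow (by norm_num) r
      have hs2 : s ≤ s ^ 2 := Nat.le_self_pow (by norm_num) s
      exact ⟨⟨hr, by show r ≤ D; omega⟩, ⟨hs, by show s ≤ D; omega⟩⟩
    · left
      push Not at hD
      rcases le_or_gt (r ^ 2 + s ^ 2) b with h | h
      · left
        exact ⟨hvN, r, s, b, c, hr, hs, hb, hvb, hbc, hD, h⟩
      · right
        exact ⟨hvN, r, s, b, c, hr, hs, hb, hc, hvb, hbc, h⟩
  have h3 := Set.ncard_le_ncard hsub (((fin_le N _).union (fin_le N _)).union (fin_le N _))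
  have h4 : ({v : ℕ | v ≤ N ∧ HasSqT M v}.ncard : ℝ) ≤ _ :=
    (Nat.cast_le (α := ℝ)).2 (h3.trans ((Set.ncard_union_le _ _).trans
      (Nat.add_le_add_right (Set.ncard_union_le _ _) _)))
  push_cast at h4
  linarith

open Classical in
theorem cnt_compl {X Y : Type} [Fintype X] [Fintype Y] {ι : Type} (inc : X → Y → Prop) (f : X → ι)
    (i : ι) (l : Y) : cnt (fun x l => ¬ inc x l) f i l + cnt inc f i l = cs f i := by
  unfold cnt cs
  rw [← Finset.card_filter_add_card_filter_not (s := univ.filter (fun x : X => f x = i))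
    (fun x => ¬ inc x l), Finset.filter_filter, Finset.filter_filter]
  congr 2
  · ext x; simp only [mem_filter, mem_univ, true_and]; tauto
  · ext x; simp only [mem_filter, mem_univ, true_and]; tauto

theorem TD.compl {v c m : ℕ} {B : Fin v → Finset (Fin v)} {f : Fin v → Fin c}
    {g : Fin v → Fin m} (h : TD (fun (x : Fin v) (i : Fin v) => x ∈ B i) f g) :
    TD (fun (x : Fin v) (i : Fin v) => x ∈ (B i)ᶜ) f g := by
  have e : (fun (x : Fin v) (i : Fin v) => x ∈ (B i)ᶜ) = fun x i => ¬ x ∈ B i := by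
    funext x i
    rw [Finset.mem_compl]
  rw [e]
  refine ⟨h.surjP, h.surjL, fun l m hlm i => ?_, fun x z hxz j => ?_⟩
  · have h1 := cnt_compl (fun (x : Fin v) (i : Fin v) => x ∈ B i) f i l
    have h2 := cnt_compl (fun (x : Fin v) (i : Fin v) => x ∈ B i) f i m
    have h3 := h.col l m hlm i
    omega
  · have h1 := cnt_compl (fun (i : Fin v) (x : Fin v) => x ∈ B i) g j x
    have h2 := cnt_compl (fun (i : Fin v) (x : Fin v) => x ∈ B i) g j z
    have h3 := h.row x z hxz j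
    omega

theorem exc_orT {M v : ℕ} (h : HasT M v) : Pool.Agent.H177R2.SD.Exc v ∨ HasSqT M v := by
  classical
  obtain ⟨k, lam, B, c, m, f, g, hk2, hkv, hT⟩ := h
  have hlam := lam_pos hk2 hkv hT.size hT.pair
  obtain ⟨hrep, hcount⟩ := repl v k lam (by omega) hlam B hT.size hT.pair
  by_cases hE : v % 4 = 3 ∧ (IsSquare (k * (v - 1 - k)) ∨ IsSquare ((k - 1) * (v - k)))
  · right
    obtain ⟨h3, h4⟩ := hE
    rcases h4 with h4 | h4
    · exact ⟨k, lam, B, c, m, f, g, hk2, hkv, hT, h4⟩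
    · obtain ⟨c1, c2, -⟩ := Comp.comp B (by omega) hT.kv hT.size hrep hT.pair ⊥ (by
        intro h hh i
        rw [Subgroup.mem_bot] at hh
        refine ⟨i, ?_⟩
        rw [hh]
        simp)
      have hlk := (design_facts (by omega) hlam hT.kv hT.size hT.pair).1
      have h2k : 2 * k ≤ v + lam := by
        have hxz : (⟨0, by omega⟩ : Fin v) ≠ ⟨1, by omega⟩ := by
          intro h
          have := congrArg Fin.val h
          simp at this
        have h5 := Finset.card_union_add_card_inter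
          (univ.filter (fun i => (⟨0, by omega⟩ : Fin v) ∈ B i))
          (univ.filter (fun i => (⟨1, by omega⟩ : Fin v) ∈ B i))
        have h6 : (univ.filter (fun i => (⟨0, by omega⟩ : Fin v) ∈ B i)) ∩
            (univ.filter (fun i => (⟨1, by omega⟩ : Fin v) ∈ B i)) =
            univ.filter (fun i => (⟨0, by omega⟩ : Fin v) ∈ B i ∧ (⟨1, by omega⟩ : Fin v) ∈ B i) := by
          ext i; simp
        rw [h6, hT.pair _ _ hxz, hrep, hrep] at h5
        have h7 := Finset.card_le_univ ((univ.filter (fun i => (⟨0, by omega⟩ : Fin v) ∈ B i)) ∪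
            (univ.filter (fun i => (⟨1, by omega⟩ : Fin v) ∈ B i)))
        rw [Fintype.card_fin] at h7
        omega
      have e : v - k - (v + lam - 2 * k) = k - lam := by omega
      refine ⟨v - k, v + lam - 2 * k, fun i => (B i)ᶜ, c, m, f, g, by omega, by omega,
        ⟨by omega, c1, c2, hT.td.compl, ?_, ?_, hT.bad⟩, ?_⟩
      · rw [e]
        exact hT.hP
      · rw [e]
        exact hT.hL
      · have h5 : (v - k) * (v - 1 - (v - k)) = (k - 1) * (v - k) := by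
          have h6 : v - 1 - (v - k) = k - 1 := by omega
          rw [h6, mul_comm]
        rw [h5]
        exact h4
  · left
    refine ⟨k, lam, hk2, hkv, ⟨hT.kv, k, B, hT.size, ?_, ?_⟩, hE⟩
    · intro x
      convert hrep x
    · intro x y hxy
      convert hT.pair x y hxy

theorem small_T {M : ℕ} (hM : M ≠ 0) : Small (HasT M) :=
  (small_exc.or (small_sqT hM)).mono fun _ h => exc_orT h

end Pool.Agent.V11209.TD
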